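import Mathlib
import Pool.Agent.Helper46.R.J1

set_option autoImplicit false

/-!
# The chromatic-number bound for `H`-intersecting families is never attained

For every graph `H` with at least two edges and every `n`,
`M_H(n) < 2 ^ (binom n 2 - (χ(H) - 1))`.

For `χ(H) ≥ 3` this is Shearer's lemma applied to the partitions of the vertex set into
`r = χ(H) - 1` classes given by all *non-constant* colourings; leaving out the constant colourings
makes the inequality strict.  For `χ(H) = 2` the family is 2-intersecting.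
-/

namespace Pool.Agent.Results.MP_cf191d_co.NeverAttained

open Finset SimpleGraph

/-- The family `𝒢` of graphs on `[n]` is `H`-intersecting: for all members `G₁, G₂` (also equal
ones) the graph `G₁ ∩ G₂` contains a copy of `H`. -/
def HIntersecting {W : Type*} (H : SimpleGraph W) {n : ℕ} (𝒢 : Set (SimpleGraph (Fin n))) : Prop :=
  ∀ G₁ ∈ 𝒢, ∀ G₂ ∈ 𝒢, H.IsContained (G₁ ⊓ G₂)

/-- `M_H(n)`: the largest size of an `H`-intersecting family of graphs on `[n]`. -/
noncomputable def M {W : Type*} (H : SimpleGraph W) (n : ℕ) : ℕ :=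
  sSup {k : ℕ | ∃ 𝒢 : Set (SimpleGraph (Fin n)), HIntersecting H 𝒢 ∧ 𝒢.ncard = k}

/-! ### Families of sets -/

section Sets

variable {α : Type*} [DecidableEq α]

lemma inter_card (U : Finset α) (T : Finset (Finset α)) (hT : ∀ A ∈ T, A ⊆ U)
    (hI : ∀ A ∈ T, ∀ B ∈ T, (A ∩ B).Nonempty) : 2 * T.card ≤ 2 ^ U.card := by
  have hinj : Set.InjOn (fun A => U \ A) (T : Set (Finset α)) := by
    intro A hA B hB h
    simp only at h
    rw [← Finset.sdiff_sdiff_eq_self (hT A hA), h, Finset.sdiff_sdiff_eq_self (hT B hB)]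
  have hd : Disjoint T (T.image (fun A => U \ A)) := by
    rw [Finset.disjoint_left]
    intro A hA hA'
    rw [mem_image] at hA'
    obtain ⟨B, hB, rfl⟩ := hA'
    obtain ⟨v, hv⟩ := hI _ hA _ hB
    rw [mem_inter, mem_sdiff] at hv
    exact hv.1.2 hv.2
  have hsub : T ∪ T.image (fun A => U \ A) ⊆ U.powerset := by
    intro A hA
    rw [mem_union, mem_image] at hA
    rw [mem_powerset]
    rcases hA with hA | ⟨B, _, rfl⟩
    · exact hT A hA
    · exact sdiff_subset
  have := card_le_card hsub
  rw [card_union_of_disjoint hd, card_image_of_injOn hinj, card_powerset] at this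
  omega

/-- 2-intersecting families -/
lemma two_inter_card (U : Finset α) (T : Finset (Finset α)) (hT : ∀ A ∈ T, A ⊆ U)
    (hI : ∀ A ∈ T, ∀ B ∈ T, 2 ≤ (A ∩ B).card) : 2 * T.card < 2 ^ U.card := by
  have hI' : ∀ A ∈ T, ∀ B ∈ T, (A ∩ B).Nonempty := fun A hA B hB => by
    rw [← card_pos]
    have := hI A hA B hB
    omega
  refine lt_of_le_of_ne (inter_card U T hT hI') ?_
  intro heq
  -- every set or its complement is a member
  have hall : ∀ A ⊆ U, A ∈ T ∨ U \ A ∈ T := by
    intro A hA
    by_contra hcon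
    rw [not_or] at hcon
    have hinj : Set.InjOn (fun A => U \ A) (T : Set (Finset α)) := by
      intro A hA B hB h
      simp only at h
      rw [← Finset.sdiff_sdiff_eq_self (hT A hA), h, Finset.sdiff_sdiff_eq_self (hT B hB)]
    have hd : Disjoint T (T.image (fun A => U \ A)) := by
      rw [Finset.disjoint_left]
      intro A hA hA'
      rw [mem_image] at hA'
      obtain ⟨B, hB, rfl⟩ := hA'
      obtain ⟨v, hv⟩ := hI' _ hA _ hB
      rw [mem_inter, mem_sdiff] at hv
      exact hv.1.2 hv.2
    have hsub : T ∪ T.image (fun A => U \ A) ⊆ U.powerset.erase A := by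
      intro B hB
      rw [mem_union, mem_image] at hB
      rw [mem_erase, mem_powerset]
      rcases hB with hB | ⟨C, hC, rfl⟩
      · exact ⟨fun h => hcon.1 (h ▸ hB), hT B hB⟩
      · refine ⟨fun h => hcon.2 ?_, sdiff_subset⟩
        rw [← h, Finset.sdiff_sdiff_eq_self (hT C hC)]
        exact hC
    have := card_le_card hsub
    rw [card_union_of_disjoint hd, card_image_of_injOn hinj,
      card_erase_of_mem (mem_powerset.2 hA), card_powerset] at this
    have hpos : 0 < 2 ^ U.card := by positivity
    omega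
  -- a minimal member
  have hne : T.Nonempty := by
    rcases hall U (Subset.refl _) with h | h
    · exact ⟨_, h⟩
    · exact ⟨_, h⟩
  obtain ⟨A, hA, hmin⟩ := exists_min_image T card hne
  have hA2 : 2 ≤ A.card := by
    have := hI A hA A hA
    rwa [inter_self] at this
  obtain ⟨a, ha⟩ : A.Nonempty := by rw [← card_pos]; omega
  have h1 : A.erase a ∉ T := by
    intro h
    have := hmin _ h
    rw [card_erase_of_mem ha] at this
    omega
  have h2 : U \ A.erase a ∈ T :=
    (hall (A.erase a) ((erase_subset _ _).trans (hT A hA))).resolve_left h1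
  have h3 := hI A hA _ h2
  have h4 : A ∩ (U \ A.erase a) ⊆ {a} := by
    intro v hv
    rw [mem_inter, mem_sdiff, mem_erase] at hv
    rw [mem_singleton]
    by_contra hva
    exact hv.2.2 ⟨hva, hv.1⟩
  have := card_le_card h4
  rw [card_singleton] at this
  omega

end Sets

/-! ### Colourings -/

section Colour

variable {n r : ℕ}

/-- the non-constant colourings -/
abbrev NC (n r : ℕ) : Type := {c : Fin n → Fin r // ¬ ∀ u v, c u = c v}

lemma card_mono {u v : Fin n} (huv : u ≠ v) :
    ((univ : Finset (Fin n → Fin r)).filter (fun c => c u = c v)).card * r = r ^ n := by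
  classical
  have : ((univ : Finset (Fin n → Fin r)).filter (fun c => c u = c v) ×ˢ
      (univ : Finset (Fin r))).card = (univ : Finset (Fin n → Fin r)).card := by
    refine card_bij' (fun p _ => Function.update p.1 v p.2)
      (fun f _ => (Function.update f v (f u), f v)) ?_ ?_ ?_ ?_
    · intro p _; exact mem_univ _
    · intro f _
      simp only [mem_product, mem_filter, mem_univ, true_and, and_true]
      rw [Function.update_of_ne huv, Function.update_self]
    · rintro ⟨c, a⟩ hp
      simp only [mem_product, mem_filter, mem_univ, true_and, and_true] at hp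
      simp only [Function.update_self, Function.update_idem, Prod.mk.injEq, and_true]
      rw [Function.update_of_ne huv, hp, Function.update_eq_self]
    · intro f _
      simp
  rw [card_product, card_univ, card_univ, Fintype.card_fun, Fintype.card_fin,
    Fintype.card_fin] at this
  exact this

lemma card_const (hn : 0 < n) :
    ((univ : Finset (Fin n → Fin r)).filter (fun c => ∀ u v, c u = c v)).card = r := by
  classical
  have : ((univ : Finset (Fin n → Fin r)).filter (fun c => ∀ u v, c u = c v)).card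
      = (univ : Finset (Fin r)).card := by
    refine card_bij' (fun c _ => c ⟨0, hn⟩) (fun a _ => fun _ => a) ?_ ?_ ?_ ?_
    · intro c _; exact mem_univ _
    · intro a _; simp
    · intro c hc
      simp only [mem_filter, mem_univ, true_and] at hc
      funext v
      exact hc _ _
    · intro a _; rfl
  rw [this, card_univ, Fintype.card_fin]

lemma card_NC (hn : 0 < n) : Fintype.card (NC n r) + r = r ^ n := by
  classical
  have h1 := card_const (r := r) hn
  have h2 := card_filter_add_card_filter_not (s := (univ : Finset (Fin n → Fin r)))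
    (fun c => ∀ u v, c u = c v)
  rw [h1, card_univ, Fintype.card_fun, Fintype.card_fin, Fintype.card_fin] at h2
  rw [Fintype.card_subtype]
  omega

lemma card_NC_mono (hn : 0 < n) {u v : Fin n} (huv : u ≠ v) :
    (((univ : Finset (NC n r)).filter (fun i => i.1 u = i.1 v)).card + r) * r = r ^ n := by
  classical
  rw [← card_mono huv]
  congr 1
  have h1 : ((univ : Finset (NC n r)).filter (fun i => i.1 u = i.1 v)).card
      = (((univ : Finset (Fin n → Fin r)).filter (fun c => c u = c v)).filter
        (fun c => ¬ ∀ u v, c u = c v)).card := by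
    refine card_bij (fun i _ => i.1) ?_ ?_ ?_
    · intro i hi
      simp only [mem_filter, mem_univ, true_and] at hi ⊢
      exact ⟨hi, i.2⟩
    · intro i _ j _ h
      exact Subtype.ext h
    · intro c hc
      simp only [mem_filter, mem_univ, true_and] at hc
      exact ⟨⟨c, hc.2⟩, by simp [hc.1], rfl⟩
  have h2 : ((univ : Finset (Fin n → Fin r)).filter (fun c => c u = c v)).filter
        (fun c => ∀ u v, c u = c v) = univ.filter (fun c => ∀ u v, c u = c v) := by
    ext c
    simp only [mem_filter, mem_univ, true_and]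
    exact ⟨fun h => h.2, fun h => ⟨h u v, h⟩⟩
  have h3 := card_filter_add_card_filter_not
    (s := (univ : Finset (Fin n → Fin r)).filter (fun c => c u = c v))
    (fun c => ∀ u v, c u = c v)
  rw [h2, card_const hn] at h3
  omega

end Colour

/-! ### Graphs -/

section Graphs

variable {W : Type*} {H : SimpleGraph W} {n : ℕ}

/-- the pairs of different vertices -/
def U (n : ℕ) : Finset (Sym2 (Fin n)) := univ.filter (fun e => ¬ e.IsDiag)

lemma card_U (n : ℕ) : (U n).card = n.choose 2 := by
  have h := Sym2.card_subtype_not_diag (α := Fin n)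
  rw [Fintype.card_subtype, Fintype.card_fin] at h
  exact h

open Classical in
/-- the edge set as a finite set -/
noncomputable def ef (G : SimpleGraph (Fin n)) : Finset (Sym2 (Fin n)) :=
  univ.filter (fun e => e ∈ G.edgeSet)

lemma mem_ef {G : SimpleGraph (Fin n)} {e : Sym2 (Fin n)} : e ∈ ef G ↔ e ∈ G.edgeSet := by
  simp [ef]

lemma ef_inj : Function.Injective (ef : SimpleGraph (Fin n) → Finset (Sym2 (Fin n))) := by
  intro G G' h
  apply SimpleGraph.edgeSet_injective
  ext e
  rw [← mem_ef, ← mem_ef, h]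

lemma ef_subset (G : SimpleGraph (Fin n)) : ef G ⊆ U n := by
  intro e he
  rw [mem_ef] at he
  simp only [U, mem_filter, mem_univ, true_and]
  exact G.not_isDiag_of_mem_edgeSet he

open Classical in
/-- the family of edge sets -/
noncomputable def fam (𝒢 : Set (SimpleGraph (Fin n))) : Finset (Finset (Sym2 (Fin n))) :=
  (Set.toFinite 𝒢).toFinset.image ef

lemma card_fam (𝒢 : Set (SimpleGraph (Fin n))) : (fam 𝒢).card = 𝒢.ncard := by
  classical
  unfold fam
  rw [card_image_of_injective _ ef_inj, Set.ncard_eq_toFinset_card 𝒢 (Set.toFinite 𝒢)]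

lemma mem_fam {𝒢 : Set (SimpleGraph (Fin n))} {B : Finset (Sym2 (Fin n))} :
    B ∈ fam 𝒢 ↔ ∃ G ∈ 𝒢, ef G = B := by
  classical
  unfold fam
  rw [mem_image]
  constructor
  · rintro ⟨G, hG, h⟩
    exact ⟨G, (Set.Finite.mem_toFinset _).1 hG, h⟩
  · rintro ⟨G, hG, h⟩
    exact ⟨G, (Set.Finite.mem_toFinset _).2 hG, h⟩

/-- the bipartite case: only two edges are used -/
lemma main_two [Finite W] (h2 : 2 ≤ H.edgeSet.ncard) {𝒢 : Set (SimpleGraph (Fin n))}
    (h𝒢 : HIntersecting H 𝒢) : 2 * 𝒢.ncard < 2 ^ (n.choose 2) := by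
  classical
  rw [← card_fam, ← card_U]
  refine two_inter_card (U n) (fam 𝒢) ?_ ?_
  · intro A hA
    obtain ⟨G, _, rfl⟩ := mem_fam.1 hA
    exact ef_subset G
  · intro A hA B hB
    obtain ⟨G₁, hG₁, rfl⟩ := mem_fam.1 hA
    obtain ⟨G₂, hG₂, rfl⟩ := mem_fam.1 hB
    obtain ⟨f⟩ := h𝒢 G₁ hG₁ G₂ hG₂
    have h3 : ef G₁ ∩ ef G₂ = ef (G₁ ⊓ G₂) := by
      ext e
      rw [mem_inter, mem_ef, mem_ef, mem_ef, SimpleGraph.edgeSet_inf]
      rfl
    rw [h3]
    have h4 : H.edgeSet.ncard ≤ (G₁ ⊓ G₂).edgeSet.ncard := by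
      have hinj := SimpleGraph.Hom.mapEdgeSet.injective f.toHom f.injective
      exact Nat.card_le_card_of_injective _ hinj
    have h5 : (G₁ ⊓ G₂).edgeSet.ncard = (ef (G₁ ⊓ G₂)).card := by
      rw [← Set.ncard_coe_finset]
      congr 1
      ext e
      rw [mem_coe, mem_ef]
    omega

/-- the non-bipartite case -/
lemma main_three {r : ℕ} (hr : 2 ≤ r) (hn : 3 ≤ n) (hH : ¬ H.Colorable r)
    {𝒢 : Set (SimpleGraph (Fin n))} (h𝒢 : HIntersecting H 𝒢) :
    𝒢.ncard * 2 ^ r < 2 ^ (n.choose 2) := by
  classical
  rw [← card_fam, ← card_U]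
  set F := fam 𝒢 with hF
  set A : NC n r → Finset (Sym2 (Fin n)) := fun i =>
    (U n).filter (fun e => ∀ u ∈ e, ∀ v ∈ e, i.1 u = i.1 v) with hA
  obtain ⟨k, hk⟩ : ∃ k, (k + r) * r = r ^ n ∧ 0 < k := by
    refine ⟨r ^ (n - 1) - r, ?_⟩
    have h1 : r ^ 2 ≤ r ^ (n - 1) := Nat.pow_le_pow_right (by omega) (by omega)
    have h2 : r < r ^ 2 := by nlinarith
    have h3 : r ^ (n - 1) - r + r = r ^ (n - 1) := by omega
    rw [h3, ← pow_succ]
    have h4 : n - 1 + 1 = n := by omega
    rw [h4]
    exact ⟨rfl, by omega⟩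
  -- every pair is covered exactly `k` times
  have hcov : ∀ e ∈ U n, (univ.filter (fun i => e ∈ A i)).card = k := by
    intro e he
    induction e using Sym2.ind with
    | _ u v =>
      simp only [U, mem_filter, mem_univ, true_and, Sym2.mk_isDiag_iff] at he
      have h1 : (univ : Finset (NC n r)).filter (fun i => s(u, v) ∈ A i)
          = univ.filter (fun i => i.1 u = i.1 v) := by
        ext i
        simp only [hA, U, mem_filter, mem_univ, true_and, Sym2.mk_isDiag_iff, Sym2.mem_iff]
        constructor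
        · intro h
          exact h.2 u (Or.inl rfl) v (Or.inr rfl)
        · intro h
          refine ⟨he, ?_⟩
          rintro a (rfl | rfl) b (rfl | rfl)
          · rfl
          · exact h
          · exact h.symm
          · rfl
      rw [h1]
      have h2 := card_NC_mono (r := r) (by omega : 0 < n) he
      rw [← hk.1] at h2
      have h3 := Nat.eq_of_mul_eq_mul_right (by omega) h2
      omega
  have hFU : ∀ B ∈ F, B ⊆ U n := by
    intro B hB
    obtain ⟨G, _, rfl⟩ := mem_fam.1 hB
    exact ef_subset G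
  have hsh := Pool.Agent.Helper46.R.J1.shearer F A k hk.2 (U n) hFU
    (fun e he => (hcov e he).ge)
  -- the traces are intersecting
  have htr : ∀ i, 2 * (F.image (fun B => B ∩ A i)).card ≤ 2 ^ (A i).card := by
    intro i
    refine inter_card (A i) _ ?_ ?_
    · intro B hB
      rw [mem_image] at hB
      obtain ⟨C, _, rfl⟩ := hB
      exact inter_subset_right
    · intro B₁ hB₁ B₂ hB₂
      rw [mem_image] at hB₁ hB₂
      obtain ⟨C₁, hC₁, rfl⟩ := hB₁
      obtain ⟨C₂, hC₂, rfl⟩ := hB₂
      obtain ⟨G₁, hG₁, rfl⟩ := mem_fam.1 hC₁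
      obtain ⟨G₂, hG₂, rfl⟩ := mem_fam.1 hC₂
      obtain ⟨f⟩ := h𝒢 G₁ hG₁ G₂ hG₂
      by_contra hne
      rw [not_nonempty_iff_eq_empty] at hne
      apply hH
      have hcol : (G₁ ⊓ G₂).Colorable r := by
        refine ⟨SimpleGraph.Coloring.mk i.1 ?_⟩
        intro u v huv hc
        have hmem : s(u, v) ∈ (ef G₁ ∩ A i) ∩ (ef G₂ ∩ A i) := by
          have h1 : s(u, v) ∈ ef G₁ := mem_ef.2 huv.1
          have h2 : s(u, v) ∈ ef G₂ := mem_ef.2 huv.2
          have h3 : s(u, v) ∈ A i := by
            simp only [hA, mem_filter]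
            refine ⟨ef_subset _ h1, ?_⟩
            intro a ha b hb
            rw [Sym2.mem_iff] at ha hb
            rcases ha with rfl | rfl <;> rcases hb with rfl | rfl
            · rfl
            · exact hc
            · exact hc.symm
            · rfl
          rw [mem_inter, mem_inter, mem_inter]
          exact ⟨⟨h1, h3⟩, ⟨h2, h3⟩⟩
        rw [hne] at hmem
        exact absurd hmem (notMem_empty _)
      exact hcol.of_hom f.toHom
  have hprod : F.card ^ k * 2 ^ Fintype.card (NC n r) ≤ 2 ^ ((U n).card * k) := by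
    have hsum : ∑ i, (A i).card = (U n).card * k := by
      have h1 : ∑ i, (A i).card = ∑ e ∈ U n, (univ.filter (fun i => e ∈ A i)).card := by
        have := sum_card_bipartiteAbove_eq_sum_card_bipartiteBelow (s := (univ : Finset (NC n r)))
          (t := U n) (fun i e => e ∈ A i)
        rw [← show ∑ i, (bipartiteAbove (fun (i : NC n r) e => e ∈ A i) (U n) i).card
          = ∑ i, (A i).card from sum_congr rfl (fun i _ => ?_)]
        · exact this
        · congr 1
          ext e
          simp only [bipartiteAbove, mem_filter, hA]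
          tauto
      rw [h1, sum_congr rfl hcov, sum_const, smul_eq_mul]
    calc F.card ^ k * 2 ^ Fintype.card (NC n r)
        ≤ (∏ i, (F.image (fun B => B ∩ A i)).card) * 2 ^ Fintype.card (NC n r) :=
          Nat.mul_le_mul_right _ hsh
      _ = ∏ i, (2 * (F.image (fun B => B ∩ A i)).card) := by
          rw [prod_mul_distrib, prod_const, card_univ, mul_comm]
      _ ≤ ∏ i, 2 ^ (A i).card := prod_le_prod' (fun i _ => htr i)
      _ = 2 ^ ((U n).card * k) := by rw [prod_pow_eq_pow_sum, hsum]
  by_contra hcon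
  push Not at hcon
  have hpos : 0 < F.card := by
    by_contra h0
    have : F.card = 0 := by omega
    rw [this, zero_mul] at hcon
    have : 0 < 2 ^ (U n).card := by positivity
    omega
  have h1 : 2 ^ ((U n).card * k) ≤ F.card ^ k * 2 ^ (r * k) := by
    calc 2 ^ ((U n).card * k) = (2 ^ (U n).card) ^ k := by rw [pow_mul]
      _ ≤ (F.card * 2 ^ r) ^ k := Nat.pow_le_pow_left hcon k
      _ = F.card ^ k * 2 ^ (r * k) := by rw [mul_pow, pow_mul]
  have h2 : 2 ^ Fintype.card (NC n r) ≤ 2 ^ (r * k) :=
    Nat.le_of_mul_le_mul_left (hprod.trans h1) (by positivity)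
  have h3 : Fintype.card (NC n r) ≤ r * k := (Nat.pow_le_pow_iff_right (by norm_num)).1 h2
  have h4 := card_NC (r := r) (by omega : 0 < n)
  have h5 := hk.1
  nlinarith

end Graphs

/-- every `H`-intersecting family is too small -/
theorem family {W : Type*} [Finite W] (H : SimpleGraph W) (h2 : 2 ≤ H.edgeSet.ncard) (n : ℕ)
    (𝒢 : Set (SimpleGraph (Fin n))) (h𝒢 : HIntersecting H 𝒢) :
    𝒢.ncard * 2 ^ (H.chromaticNumber.toNat - 1) < 2 ^ (n.choose 2) := by
  classical
  have hcol := SimpleGraph.colorable_chromaticNumber_of_fintype H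
  have hne : H ≠ ⊥ := by
    rintro rfl
    simp at h2
  have ht1 : ¬ H.Colorable 1 := by
    rw [SimpleGraph.colorable_one_iff]
    exact hne
  set t := H.chromaticNumber.toNat with ht
  have ht2 : 2 ≤ t := by
    by_contra hcon
    exact ht1 (hcol.mono (by omega))
  have htn : ¬ H.Colorable (t - 1) := by
    intro h
    have h1 := h.chromaticNumber_le
    have h2 : H.chromaticNumber.toNat ≤ t - 1 := ENat.toNat_le_of_le_natCast h1
    omega
  rcases 𝒢.eq_empty_or_nonempty with rfl | ⟨G, hG⟩
  · simp
  · have hn : t ≤ n := by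
      obtain ⟨f⟩ := h𝒢 G hG G hG
      have h1 : (G ⊓ G).Colorable n := by
        have := SimpleGraph.colorable_of_fintype (G ⊓ G)
        rwa [Fintype.card_fin] at this
      have h2 := (h1.of_hom f.toHom).chromaticNumber_le
      exact ENat.toNat_le_of_le_natCast h2
    rcases Nat.lt_or_ge 2 t with h3 | h3
    · exact main_three (by omega) (by omega) htn h𝒢
    · have h4 : t - 1 = 1 := by omega
      rw [h4, pow_one, mul_comm]
      exact main_two h2 h𝒢

/-- **Theorem.** For every (finite) graph `H` with at least two edges and every `n`,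
`M_H(n) < 2 ^ (binom n 2 - (χ(H) - 1))`. -/
theorem result {W : Type*} [Finite W] (H : SimpleGraph W) (h2 : 2 ≤ H.edgeSet.ncard) (n : ℕ) :
    (M H n : ℝ) < (2 : ℝ) ^ ((n.choose 2 : ℤ) - ((H.chromaticNumber.toNat : ℤ) - 1)) := by
  classical
  have hmem : M H n ∈ {k : ℕ | ∃ 𝒢 : Set (SimpleGraph (Fin n)), HIntersecting H 𝒢 ∧
      𝒢.ncard = k} := by
    refine Nat.sSup_mem ⟨0, ∅, fun G hG => absurd hG (by simp), by simp⟩ ?_
    refine ⟨Nat.card (SimpleGraph (Fin n)), ?_⟩
    rintro k ⟨𝒢, _, rfl⟩
    exact Set.ncard_le_card 𝒢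
  obtain ⟨𝒢, h𝒢, hcard⟩ := hmem
  have h := family H h2 n 𝒢 h𝒢
  have ht : 1 ≤ H.chromaticNumber.toNat := by
    by_contra hcon
    have hcol := SimpleGraph.colorable_chromaticNumber_of_fintype H
    have h0 : H.chromaticNumber.toNat = 0 := by omega
    have hne : H ≠ ⊥ := by
      rintro rfl
      simp at h2
    apply hne
    rw [← SimpleGraph.colorable_one_iff]
    exact hcol.mono (by omega)
  rw [← hcard, zpow_sub₀ (by norm_num), lt_div_iff₀ (by positivity)]
  have e : ((H.chromaticNumber.toNat : ℤ) - 1) = ((H.chromaticNumber.toNat - 1 : ℕ) : ℤ) := by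
    omega
  rw [e, zpow_natCast, zpow_natCast]
  exact_mod_cast h

end Pool.Agent.Results.MP_cf191d_co.NeverAttained
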